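import Pool.Agent.V8H93.BR.Main

/-!
# The criterion cannot be weakened
-/

set_option autoImplicit false
set_option linter.style.haveILetI false
set_option linter.unusedSectionVars false

open scoped Classical

namespace Pool.Agent.V8H93.BR

open Pool.Agent.V8H87.EB.Br (pc)
open Pool.Agent.V8H93.QI (Weyl)
open Pool.Agent.V8H87.MB Module NumberField

/-- `G` has a nonzero representation of finite dimension over a field of characteristic zero in
which no element other than `1` has a nonzero fixed vector -/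
def FixedPointFree (G : Type) [Group G] : Prop :=
  ∃ (k V : Type) (_ : Field k) (_ : CharZero k) (_ : AddCommGroup V) (_ : Module k V)
    (_ : FiniteDimensional k V) (ρ : Representation k G V), 0 < finrank k V ∧
      ∀ g : G, g ≠ 1 → ∀ v, ρ g v = v → v = 0

section

variable {G : Type} [Group G] [Fintype G] {k V : Type} [Field k] [CharZero k] [AddCommGroup V]
  [Module k V] [FiniteDimensional k V] (ρ : Representation k G V)

lemma sum_tr (hρ : ∀ g : G, g ≠ 1 → ∀ v, ρ g v = v → v = 0) (L : Subgroup G) :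
    (∑ g : G, if g ∈ L then LinearMap.trace k V (ρ g) else 0) =
      if L = ⊥ then (finrank k V : k) else 0 := by
  split_ifs with h
  · subst h
    rw [Finset.sum_eq_single_of_mem (1 : G) (Finset.mem_univ _)]
    · rw [if_pos (one_mem _), map_one, LinearMap.trace_one]
    · intro g _ hg
      rw [if_neg (fun h => hg (Subgroup.mem_bot.1 h))]
  · obtain ⟨⟨l, hl⟩, hl1'⟩ := Subgroup.ne_bot_iff_exists_ne_one.1 h
    have hl1 : l ≠ 1 := fun e => hl1' (Subtype.ext e)
    have h1 : (∑ g : G, if g ∈ L then ρ g else 0) = 0 := by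
      ext v
      refine hρ l hl1 _ ?_
      rw [LinearMap.sum_apply, map_sum, ← Equiv.sum_comp (Equiv.mulLeft (l : G)⁻¹)]
      refine Finset.sum_congr rfl (fun g _ => ?_)
      have h2 : (l : G)⁻¹ * g ∈ L ↔ g ∈ L := Subgroup.mul_mem_cancel_left _ (inv_mem hl)
      simp only [Equiv.coe_mulLeft, h2]
      split_ifs with h3
      · rw [← Module.End.mul_apply, ← map_mul, mul_inv_cancel_left]
      · simp
    have h2 := congrArg (LinearMap.trace k V) h1
    rw [map_sum, map_zero] at h2
    refine Eq.trans (Finset.sum_congr rfl (fun g _ => ?_)) h2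
    by_cases h3 : g ∈ L
    · rw [if_pos h3, if_pos h3]
    · rw [if_neg h3, if_neg h3, map_zero]

lemma pair (hρ : ∀ g : G, g ≠ 1 → ∀ v, ρ g v = v → v = 0) (L : Subgroup G) :
    (∑ g : G, LinearMap.trace k V (ρ g) * (pc L g : k)) =
      if L = ⊥ then (Nat.card G : k) * (finrank k V : k) else 0 := by
  have hL : (Nat.card L : k) ≠ 0 := by exact_mod_cast Nat.card_pos.ne'
  have h1 : (Nat.card L : k) * (∑ g : G, LinearMap.trace k V (ρ g) * (pc L g : k)) =
      ∑ x : G, ∑ g : G, (if x⁻¹ * g * x ∈ L then LinearMap.trace k V (ρ g) else 0) := by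
    rw [Finset.sum_comm, Finset.mul_sum]
    refine Finset.sum_congr rfl (fun g _ => ?_)
    have h2 := congrArg (Int.cast (R := k)) (count L g)
    push_cast at h2
    have h3 : (Nat.card L : k) * (LinearMap.trace k V (ρ g) * (pc L g : k)) =
        LinearMap.trace k V (ρ g) * ((Nat.card L : k) * (pc L g : k)) := by ring
    rw [h3, ← h2, Finset.mul_sum]
    refine Finset.sum_congr rfl (fun x _ => ?_)
    split_ifs <;> simp
  have h2 : ∀ x : G, (∑ g : G, (if x⁻¹ * g * x ∈ L then LinearMap.trace k V (ρ g) else 0)) =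
      if L = ⊥ then (finrank k V : k) else 0 := by
    intro x
    rw [← sum_tr ρ hρ L, ← Equiv.sum_comp (MulAut.conj x).toEquiv]
    refine Finset.sum_congr rfl (fun g _ => ?_)
    have h3 : (MulAut.conj x).toEquiv g = x * g * x⁻¹ := rfl
    have h4 : x⁻¹ * (x * g * x⁻¹) * x = g := by group
    rw [h3, h4]
    have h5 : LinearMap.trace k V (ρ (x * g * x⁻¹)) = LinearMap.trace k V (ρ g) := by
      rw [map_mul, LinearMap.trace_mul_comm, ← map_mul]
      congr 2
      group
    rw [h5]
  rw [Finset.sum_congr rfl fun x _ => h2 x, Finset.sum_const, Finset.card_univ,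
    ← Nat.card_eq_fintype_card, nsmul_eq_mul] at h1
  apply mul_left_cancel₀ hL
  rw [h1]
  split_ifs with h
  · rw [h, Subgroup.card_bot, Nat.cast_one, one_mul]
  · simp

end

/-- the number of trivial subgroups is determined by the permutation character -/
lemma addPerm_bot {G : Type} [Group G] [Fintype G] (hG : FixedPointFree G) :
    AddPerm (G := G) (fun H => if H = ⊥ then 1 else 0) := by
  obtain ⟨k, V, _, _, _, _, _, ρ, hV, hρ⟩ := hG
  intro I J _ _ U U' h
  have h1 : ∀ (T : Type) [Fintype T] (X : T → Subgroup G),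
      (∑ g : G, LinearMap.trace k V (ρ g) * ((∑ t, pc (X t) g : ℤ) : k)) =
        ((Nat.card G * finrank k V * ∑ t, (if X t = ⊥ then 1 else 0) : ℕ) : k) := by
    intro T _ X
    have h2 : ∀ g : G, LinearMap.trace k V (ρ g) * ((∑ t, pc (X t) g : ℤ) : k) =
        ∑ t, LinearMap.trace k V (ρ g) * (pc (X t) g : k) := by
      intro g
      rw [Int.cast_sum, Finset.mul_sum]
    rw [Finset.sum_congr rfl fun g _ => h2 g, Finset.sum_comm,
      Finset.sum_congr rfl fun t _ => pair ρ hρ (X t)]
    push_cast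
    rw [Finset.mul_sum]
    refine Finset.sum_congr rfl (fun t _ => ?_)
    split_ifs <;> simp
  have h3 := h1 I U
  rw [Finset.sum_congr rfl fun g _ => by rw [h g], h1 J U'] at h3
  have h4 : Nat.card G * finrank k V * (∑ j, (if U' j = ⊥ then 1 else 0)) =
      Nat.card G * finrank k V * ∑ i, (if U i = ⊥ then 1 else 0) := by exact_mod_cast h3
  exact (Nat.eq_of_mul_eq_mul_left (Nat.mul_pos Nat.card_pos hV) h4).symm

lemma exists_transcendental : ∃ t : ℂ, Transcendental ℚ t := by
  by_contra h
  push Not at h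
  have h1 : {x : ℂ | IsAlgebraic ℚ x} = Set.univ := by
    refine Set.eq_univ_of_forall fun x => ?_
    by_contra hx
    exact h x hx
  have h2 := Algebraic.countable ℚ ℂ
  rw [h1] at h2
  exact not_countable_complex h2

/-- the criterion is sharp for groups with a fixed point free representation -/
theorem sharp (F : Type) [Field F] [NumberField F] [IsTotallyComplex F] (E : Type) [Field E]
    [NumberField E] (G : Type) [Group G] [Fintype G] (hG : FixedPointFree G) :
    ∃ (r : Subgroup G → ℕ) (a b : (E →+* ℂ) → Subgroup G → ℂ), MulPerm a ∧ MulPerm b ∧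
      AddPerm r ∧ (∀ H, H ≠ ⊥ → NQ1 F E r a b H) ∧ (∀ ι H, a ι H ≠ 0 ∧ b ι H ≠ 0) ∧
      ¬ NQ1 F E r a b ⊥ := by
  obtain ⟨t, ht⟩ := exists_transcendental
  have ht0 : t ≠ 0 := by
    rintro rfl
    exact ht isAlgebraic_zero
  refine ⟨fun _ => 0, fun _ H => t ^ (if H = ⊥ then 1 else 0), fun _ _ => 1, ?_, ?_, ?_, ?_, ?_, ?_⟩
  · intro I J _ _ U U' h s
    rw [Finset.prod_pow_eq_pow_sum, Finset.prod_pow_eq_pow_sum]
    congr 1
    exact addPerm_bot hG I J U U' h
  · intro I J _ _ U U' h s
    simp
  · intro I J _ _ U U' h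
    simp
  · intro H hH
    refine ⟨fun ι => ⟨pow_ne_zero _ ht0, one_ne_zero⟩, fun x _ => ⟨1, one_ne_zero, fun ι => ?_⟩⟩
    simp [hH]
  · intro ι H
    exact ⟨pow_ne_zero _ ht0, one_ne_zero⟩
  · rintro ⟨-, h⟩
    obtain ⟨y, hy⟩ := exists_delta F
    obtain ⟨e, -, he⟩ := h y hy
    obtain ⟨ι⟩ : Nonempty (E →+* ℂ) := inferInstance
    have h1 := he ι
    simp only [if_true, pow_one, pow_zero, mul_one] at h1
    apply ht
    rw [h1]
    exact (Algebra.IsAlgebraic.isAlgebraic (R := ℚ) e).algHom (ι : E →+* ℂ).toRatAlgHom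

lemma norm_bot {G : Type} [Group G] :
    Subgroup.normalizer ((⊥ : Subgroup G) : Set G) = ⊤ := by
  rw [eq_top_iff]
  intro g _
  rw [Subgroup.mem_normalizer_iff]
  intro h
  rw [Subgroup.mem_bot, Subgroup.mem_bot]
  constructor
  · rintro rfl
    group
  · intro h1
    have h2 : g * h = g := by simpa using mul_inv_eq_one.1 h1
    simpa using h2

/-- `N(1) / 1 = G` -/
noncomputable def weylBot (G : Type) [Group G] : Weyl (⊥ : Subgroup G) ≃* G :=
  (QuotientGroup.quotientMulEquivOfEq (by
    ext x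
    rw [Subgroup.mem_subgroupOf, Subgroup.mem_bot, Subgroup.mem_bot]
    exact ⟨fun h => Subtype.ext h, fun h => congrArg Subtype.val h⟩ :
      (⊥ : Subgroup G).subgroupOf (Subgroup.normalizer ((⊥ : Subgroup G) : Set G)) = ⊥)).trans
    (QuotientGroup.quotientBot.trans ((MulEquiv.subgroupCongr norm_bot).trans Subgroup.topEquiv))

end Pool.Agent.V8H93.BR
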