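import Pool.Agent.V8H93.BR.PQ
import Pool.Agent.V8H87.MB.Sym

/-!
# Q1 for the fixed parts of a motive with an action of a finite group
-/

set_option autoImplicit false
set_option linter.style.haveILetI false
set_option linter.unusedSectionVars false

open scoped Classical

namespace Pool.Agent.V8H93.BR

open Pool.Agent.V8H87.EB.Br (pc)
open Pool.Agent.V8H93.QI (Weyl)
open Pool.Agent.V8H87.MB Module NumberField

section Core

variable {G : Type} [Group G] [Fintype G]

/-- from the span to families -/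
lemma families {P : Subgroup G → Prop} {z : G → ℤ}
    (hz : z ∈ AddSubgroup.closure {f | ∃ H : Subgroup G, P H ∧ f = pc H}) :
    ∃ (I J : Type) (_ : Fintype I) (_ : Fintype J) (H : I → Subgroup G) (H' : J → Subgroup G),
      (∀ i, P (H i)) ∧ (∀ j, P (H' j)) ∧ ∀ g, z g + ∑ i, pc (H i) g = ∑ j, pc (H' j) g := by
  induction hz using AddSubgroup.closure_induction with
  | mem f hf =>
    obtain ⟨K, hP, rfl⟩ := hf
    exact ⟨Empty, Unit, inferInstance, inferInstance, fun e => e.elim, fun _ => K,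
      fun e => e.elim, fun _ => hP, fun w => by simp⟩
  | zero =>
    exact ⟨Empty, Empty, inferInstance, inferInstance, fun e => e.elim, fun e => e.elim,
      fun e => e.elim, fun e => e.elim, fun w => by simp⟩
  | add f g _ _ hf hg =>
    obtain ⟨I, J, _, _, K, K', h1, h2, h3⟩ := hf
    obtain ⟨I₁, J₁, _, _, L, L', g1, g2, g3⟩ := hg
    refine ⟨I ⊕ I₁, J ⊕ J₁, inferInstance, inferInstance, Sum.elim K L, Sum.elim K' L', ?_, ?_, ?_⟩
    · rintro (i | i)
      · exact h1 i
      · exact g1 i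
    · rintro (i | i)
      · exact h2 i
      · exact g2 i
    · intro w
      rw [Fintype.sum_sum_type, Fintype.sum_sum_type]
      have e1 := h3 w
      have e2 := g3 w
      simp only [Sum.elim_inl, Sum.elim_inr, Pi.add_apply]
      rw [← e1, ← e2]
      ring
  | neg f _ hf =>
    obtain ⟨I, J, _, _, K, K', h1, h2, h3⟩ := hf
    refine ⟨J, I, inferInstance, inferInstance, K', K, h2, h1, fun w => ?_⟩
    rw [← h3 w, Pi.neg_apply]
    ring

/-- Values of the parts `M₀^H`, `H ≤ G`, of a motive `M₀` with an action of `G`: relations between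
permutation characters give relations between the values. -/
def MulPerm {S : Type} (a : S → Subgroup G → ℂ) : Prop :=
  ∀ (I J : Type) [Fintype I] [Fintype J] (U : I → Subgroup G) (U' : J → Subgroup G),
    (∀ g, ∑ i, pc (U i) g = ∑ j, pc (U' j) g) → ∀ s, ∏ i, a s (U i) = ∏ j, a s (U' j)

/-- Ranks of the parts `M₀^H`, `H ≤ G`: relations between permutation characters give relations
between the ranks. -/
def AddPerm (r : Subgroup G → ℕ) : Prop :=
  ∀ (I J : Type) [Fintype I] [Fintype J] (U : I → Subgroup G) (U' : J → Subgroup G),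
    (∀ g, ∑ i, pc (U i) g = ∑ j, pc (U' j) g) → ∑ i, r (U i) = ∑ j, r (U' j)

variable {E : Type} [Field E] {S : Type}

/-- the multiplicative form of Q1 -/
def TT (em : S → (E →+* ℂ)) (c : ℂ) (a b : S → Subgroup G → ℂ) (r : Subgroup G → ℕ)
    (H : Subgroup G) : Prop :=
  (∀ s, a s H ≠ 0 ∧ b s H ≠ 0) ∧ ∃ e : E, e ≠ 0 ∧ ∀ s, a s H = em s e * c ^ r H * b s H

lemma TT_of_mem {em : S → (E →+* ℂ)} {c : ℂ} (hc0 : c ≠ 0) {a b : S → Subgroup G → ℂ}
    {r : Subgroup G → ℕ} (ha : MulPerm a) (hb : MulPerm b) (hr : AddPerm r)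
    {P : Subgroup G → Prop} (hP : ∀ H, P H → TT em c a b r H) {U : Subgroup G}
    (hU : pc U ∈ AddSubgroup.closure {f | ∃ H : Subgroup G, P H ∧ f = pc H}) :
    TT em c a b r U := by
  obtain ⟨I, J, _, _, H, H', hH, hH', hid⟩ := families hU
  have hrel : ∀ d : S → Subgroup G → ℂ, MulPerm d → ∀ s,
      d s U * ∏ i, d s (H i) = ∏ j, d s (H' j) := by
    intro d hd s
    have h1 := hd (Option I) J (fun o => o.elim U H) H' (by
      intro g
      rw [Fintype.sum_option]
      exact hid g) s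
    rw [Fintype.prod_option] at h1
    exact h1
  have hdim : r U + ∑ i, r (H i) = ∑ j, r (H' j) := by
    have h1 := hr (Option I) J (fun o => o.elim U H) H' (by
      intro g
      rw [Fintype.sum_option]
      exact hid g)
    rw [Fintype.sum_option] at h1
    exact h1
  have hAeq := hrel a ha
  have hBeq := hrel b hb
  have hAne : ∀ s, a s U ≠ 0 := by
    intro s h
    have h1 := hAeq s
    rw [h, zero_mul] at h1
    exact Finset.prod_ne_zero_iff.2 (fun j _ => ((hP _ (hH' j)).1 s).1) h1.symm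
  have hBne : ∀ s, b s U ≠ 0 := by
    intro s h
    have h1 := hBeq s
    rw [h, zero_mul] at h1
    exact Finset.prod_ne_zero_iff.2 (fun j _ => ((hP _ (hH' j)).1 s).2) h1.symm
  refine ⟨fun s => ⟨hAne s, hBne s⟩, ?_⟩
  choose e he0 he using fun i => (hP _ (hH i)).2
  choose e' he0' he' using fun j => (hP _ (hH' j)).2
  have hden : ∏ i, e i ≠ 0 := Finset.prod_ne_zero_iff.2 fun i _ => he0 _
  refine ⟨(∏ j, e' j) / ∏ i, e i,
    div_ne_zero (Finset.prod_ne_zero_iff.2 fun i _ => he0' _) hden, fun s => ?_⟩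
  have h1 := hAeq s
  have h2 := hBeq s
  have h3 : ∏ i, a s (H i) = em s (∏ i, e i) * c ^ (∑ i, r (H i)) * ∏ i, b s (H i) := by
    rw [Finset.prod_congr rfl fun i _ => he i s, Finset.prod_mul_distrib,
      Finset.prod_mul_distrib, map_prod, Finset.prod_pow_eq_pow_sum]
  have h4 : ∏ j, a s (H' j) = em s (∏ j, e' j) * c ^ (∑ j, r (H' j)) * ∏ j, b s (H' j) := by
    rw [Finset.prod_congr rfl fun i _ => he' i s, Finset.prod_mul_distrib,
      Finset.prod_mul_distrib, map_prod, Finset.prod_pow_eq_pow_sum]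
  rw [h3, h4, ← h2, ← hdim] at h1
  have hb0 : ∏ i, b s (H i) ≠ 0 :=
    Finset.prod_ne_zero_iff.2 fun i _ => ((hP _ (hH i)).1 s).2
  have hd0 : em s (∏ i, e i) ≠ 0 := (map_ne_zero (em s)).2 hden
  have hcn0 : c ^ (∑ i, r (H i)) ≠ 0 := pow_ne_zero _ hc0
  rw [map_div₀]
  generalize (∏ i, b s (H i)) = b₁ at h1 hb0
  generalize em s (∏ i, e i) = d₁ at h1 hd0 ⊢
  generalize em s (∏ j, e' j) = d₂ at h1 ⊢
  rw [pow_add] at h1
  generalize c ^ (∑ i, r (H i)) = u at h1 hcn0
  generalize c ^ r U = v at h1 ⊢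
  generalize a s U = A₁ at h1 ⊢
  generalize b s U = B₁ at h1 ⊢
  have h6 : (A₁ * d₁) * (u * b₁) = (d₂ * v * B₁) * (u * b₁) := by linear_combination h1
  have h7 := mul_right_cancel₀ (mul_ne_zero hcn0 hb0) h6
  field_simp
  linear_combination h7

/-- one step -/
lemma TT_step {em : S → (E →+* ℂ)} {c : ℂ} (hc0 : c ≠ 0) {a b : S → Subgroup G → ℂ}
    {r : Subgroup G → ℕ} (ha : MulPerm a) (hb : MulPerm b) (hr : AddPerm r) {H : Subgroup G}
    (hH : ¬ PQ2 (Weyl H)) (hup : ∀ H', H < H' → TT em c a b r H') : TT em c a b r H :=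
  TT_of_mem hc0 ha hb hr (P := fun H' => H < H') hup (step hH)

/-- all subgroups -/
lemma TT_all {em : S → (E →+* ℂ)} {c : ℂ} (hc0 : c ≠ 0) {a b : S → Subgroup G → ℂ}
    {r : Subgroup G → ℕ} (ha : MulPerm a) (hb : MulPerm b) (hr : AddPerm r)
    (hP : ∀ H, PQ2 (Weyl H) → TT em c a b r H) (U : Subgroup G) : TT em c a b r U :=
  TT_of_mem hc0 ha hb hr (P := fun H => PQ2 (Weyl H)) hP (pc_mem_Ps U)

end Core

section Fixed

variable {G : Type} [Group G] [Fintype G] (F : Type) [Field F] [NumberField F] (E : Type) [Field E]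

/-- Q1 for `M₀^H`, and the values are not zero -/
def NQ1 (r : Subgroup G → ℕ) (a b : (E →+* ℂ) → Subgroup G → ℂ) (H : Subgroup G) : Prop :=
  (∀ ι, a ι H ≠ 0 ∧ b ι H ≠ 0) ∧ Q1 F E (r H) (fun ι => a ι H) (fun ι => b ι H)

variable {F E} [IsTotallyComplex F]

lemma NQ1_iff {r : Subgroup G → ℕ} {a b : (E →+* ℂ) → Subgroup G → ℂ} {H : Subgroup G} :
    NQ1 F E r a b H ↔ ∀ x : ℂ, IsDelta F x →
      TT (S := E →+* ℂ) id (Complex.I ^ (finrank ℚ F / 2) * x) a b r H := by
  constructor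
  · intro h x hx
    obtain ⟨h1, h2⟩ := h
    obtain ⟨e, he0, he⟩ := h2 x hx
    exact ⟨h1, e, he0, he⟩
  · intro h
    obtain ⟨y, hy⟩ := exists_delta F
    refine ⟨(h y hy).1, fun x hx => ?_⟩
    obtain ⟨e, he0, he⟩ := (h x hx).2
    exact ⟨e, he0, he⟩

lemma NQ1_step {r : Subgroup G → ℕ} {a b : (E →+* ℂ) → Subgroup G → ℂ} (ha : MulPerm a)
    (hb : MulPerm b) (hr : AddPerm r) {H : Subgroup G} (hH : ¬ PQ2 (Weyl H))
    (hup : ∀ H', H < H' → NQ1 F E r a b H') : NQ1 F E r a b H := by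
  rw [NQ1_iff]
  intro x hx
  exact TT_step (mul_ne_zero (pow_ne_zero _ Complex.I_ne_zero) hx.ne_zero) ha hb hr hH
    fun H' h => NQ1_iff.1 (hup H' h) x hx

lemma NQ1_all {r : Subgroup G → ℕ} {a b : (E →+* ℂ) → Subgroup G → ℂ} (ha : MulPerm a)
    (hb : MulPerm b) (hr : AddPerm r) (hP : ∀ H : Subgroup G, PQ2 (Weyl H) → NQ1 F E r a b H)
    (U : Subgroup G) : NQ1 F E r a b U := by
  rw [NQ1_iff]
  intro x hx
  exact TT_all (mul_ne_zero (pow_ne_zero _ Complex.I_ne_zero) hx.ne_zero) ha hb hr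
    (fun H h => NQ1_iff.1 (hP H h) x hx) U

end Fixed

end Pool.Agent.V8H93.BR
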