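import Pool.Agent.V8H93.BR.Core

/-!
# Q1 for the restrictions of a motive, by the automorphism groups of the fields
-/

set_option autoImplicit false
set_option linter.style.haveILetI false
set_option linter.unusedSectionVars false

open scoped Classical

namespace Pool.Agent.V8H93.BR

open Pool.Agent.V8H87.EB.Br (pc)
open Pool.Agent.V8H93.QI (Weyl)
open Pool.Agent.V8H87.MB Module NumberField

lemma PQ2.of_equiv {W W' : Type} [Group W] [Group W'] (e : W ≃* W') (h : PQ2 W) : PQ2 W' := by
  intro K p q hp hq hK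
  have e1 := e.symm.subgroupMap K
  have h1 := h (K.map (e.symm : W' →* W)) p q hp hq (by rw [← Nat.card_congr e1.toEquiv, hK])
  exact isCyclic_of_surjective e1.symm e1.symm.surjective

section Gal

variable {F N : Type} [Field F] [Field N] [Algebra F N] [FiniteDimensional F N] [IsGalois F N]

lemma mem_fix (U : Subgroup (N ≃ₐ[F] N)) (x : N) :
    x ∈ IntermediateField.fixedField U ↔ ∀ u ∈ U, u x = x := by
  rw [IntermediateField.mem_fixedField_iff]

lemma fix_mem (U : Subgroup (N ≃ₐ[F] N)) (g : N ≃ₐ[F] N) :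
    g ∈ U ↔ ∀ x ∈ IntermediateField.fixedField U, g x = x := by
  conv_lhs => rw [← IntermediateField.fixingSubgroup_fixedField U]
  rw [IntermediateField.mem_fixingSubgroup_iff]

lemma norm_maps (U : Subgroup (N ≃ₐ[F] N)) {g : N ≃ₐ[F] N}
    (hg : g ∈ Subgroup.normalizer (U : Set (N ≃ₐ[F] N))) {x : N}
    (hx : x ∈ IntermediateField.fixedField U) : g x ∈ IntermediateField.fixedField U := by
  rw [mem_fix] at hx ⊢
  intro u hu
  have h1 : g⁻¹ * u * g ∈ U := by
    have h2 := (Subgroup.mem_normalizer_iff.1 (inv_mem hg) u).1 hu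
    rwa [inv_inv] at h2
  have h3 := hx _ h1
  have h4 : u (g x) = g ((g⁻¹ * u * g) x) := by
    rw [AlgEquiv.mul_apply, AlgEquiv.mul_apply, ← AlgEquiv.mul_apply g g⁻¹, mul_inv_cancel,
      AlgEquiv.one_apply]
  rw [h4, h3]

/-- restriction to the fixed field -/
noncomputable def resHom (U : Subgroup (N ≃ₐ[F] N))
    (g : Subgroup.normalizer (U : Set (N ≃ₐ[F] N))) :
    IntermediateField.fixedField U →ₐ[F] IntermediateField.fixedField U :=
  ((g : N ≃ₐ[F] N).toAlgHom.comp (IntermediateField.fixedField U).val).codRestrict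
    (IntermediateField.fixedField U).toSubalgebra (fun x => norm_maps U g.2 x.2)

lemma resHom_coe (U : Subgroup (N ≃ₐ[F] N)) (g : Subgroup.normalizer (U : Set (N ≃ₐ[F] N)))
    (x : IntermediateField.fixedField U) : ((resHom U g x : IntermediateField.fixedField U) : N) =
      (g : N ≃ₐ[F] N) x := rfl

/-- restriction to the fixed field, a homomorphism of groups -/
noncomputable def resEquiv (U : Subgroup (N ≃ₐ[F] N)) :
    Subgroup.normalizer (U : Set (N ≃ₐ[F] N)) →*
      (IntermediateField.fixedField U ≃ₐ[F] IntermediateField.fixedField U) where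
  toFun g := AlgEquiv.ofAlgHom (resHom U g) (resHom U g⁻¹)
    (by
      ext x
      change (g : N ≃ₐ[F] N) ((g⁻¹ : N ≃ₐ[F] N) x) = x
      rw [← AlgEquiv.mul_apply, mul_inv_cancel, AlgEquiv.one_apply])
    (by
      ext x
      change (g⁻¹ : N ≃ₐ[F] N) ((g : N ≃ₐ[F] N) x) = x
      rw [← AlgEquiv.mul_apply, inv_mul_cancel, AlgEquiv.one_apply])
  map_one' := by
    ext x
    rfl
  map_mul' g h := by
    ext x
    rfl

lemma resEquiv_coe (U : Subgroup (N ≃ₐ[F] N)) (g : Subgroup.normalizer (U : Set (N ≃ₐ[F] N)))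
    (x : IntermediateField.fixedField U) :
    ((resEquiv U g x : IntermediateField.fixedField U) : N) = (g : N ≃ₐ[F] N) x := rfl

lemma resEquiv_ker (U : Subgroup (N ≃ₐ[F] N)) :
    (resEquiv U).ker = U.subgroupOf (Subgroup.normalizer (U : Set (N ≃ₐ[F] N))) := by
  ext g
  rw [MonoidHom.mem_ker, Subgroup.mem_subgroupOf, fix_mem]
  constructor
  · intro h x hx
    have h1 := congrArg (fun e => ((e ⟨x, hx⟩ : IntermediateField.fixedField U) : N)) h
    exact h1
  · intro h
    ext x
    exact h x x.2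

lemma resEquiv_surjective (U : Subgroup (N ≃ₐ[F] N)) : Function.Surjective (resEquiv U) := by
  intro σ
  have hs : ∀ x : IntermediateField.fixedField U, σ.liftNormal N (x : N) = (σ x : N) :=
    fun x => AlgEquiv.liftNormal_commutes σ N x
  have hs' : ∀ x : IntermediateField.fixedField U,
      (σ.liftNormal N)⁻¹ (x : N) = (σ.symm x : N) := by
    intro x
    have h1 := hs (σ.symm x)
    rw [AlgEquiv.apply_symm_apply] at h1
    rw [← h1, ← AlgEquiv.mul_apply, inv_mul_cancel, AlgEquiv.one_apply]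
  have hn : σ.liftNormal N ∈ Subgroup.normalizer (U : Set (N ≃ₐ[F] N)) := by
    rw [Subgroup.mem_normalizer_iff]
    intro u
    constructor
    · intro hu
      rw [fix_mem]
      intro x hx
      rw [AlgEquiv.mul_apply, AlgEquiv.mul_apply, hs' ⟨x, hx⟩,
        (mem_fix U _).1 (σ.symm ⟨x, hx⟩).2 u hu, hs, AlgEquiv.apply_symm_apply]
    · intro hu
      rw [fix_mem]
      intro x hx
      have h1 := (fix_mem U _).1 hu (σ ⟨x, hx⟩ : N) (σ ⟨x, hx⟩).2
      rw [AlgEquiv.mul_apply, AlgEquiv.mul_apply, hs' (σ ⟨x, hx⟩), AlgEquiv.symm_apply_apply,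
        ← hs ⟨x, hx⟩] at h1
      exact (σ.liftNormal N).injective h1
  refine ⟨⟨_, hn⟩, ?_⟩
  ext x
  rw [resEquiv_coe]
  exact hs x

/-- `N(U) / U` is the group of automorphisms of the field of `U` -/
noncomputable def weylEquiv (U : Subgroup (N ≃ₐ[F] N)) :
    Weyl U ≃* (IntermediateField.fixedField U ≃ₐ[F] IntermediateField.fixedField U) :=
  (QuotientGroup.quotientMulEquivOfEq (resEquiv_ker U).symm).trans
    (QuotientGroup.quotientKerEquivOfSurjective (resEquiv U) (resEquiv_surjective U))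

lemma pq2_iff (U : Subgroup (N ≃ₐ[F] N)) :
    PQ2 (Weyl U) ↔ PQ2 (IntermediateField.fixedField U ≃ₐ[F] IntermediateField.fixedField U) :=
  ⟨fun h => h.of_equiv (weylEquiv U), fun h => h.of_equiv (weylEquiv U).symm⟩

end Gal

end Pool.Agent.V8H93.BR
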