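import Pool.Agent.V8H93.BR.Fld

/-!
# Q1 for the restrictions of a motive
-/

set_option autoImplicit false
set_option linter.style.haveILetI false
set_option linter.unusedSectionVars false

open scoped Classical

namespace Pool.Agent.V8H93.BR

open Pool.Agent.V8H87.EB.Br (pc)
open Pool.Agent.V8H93.QI (Weyl)
open Pool.Agent.V8H87.MB Module NumberField

lemma addPerm_index {G : Type} [Group G] [Fintype G] (n : ℕ) :
    AddPerm (G := G) (fun U => n * U.index) := by
  intro I J _ _ U U' h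
  have hpc1 : ∀ K : Subgroup G, pc K 1 = (K.index : ℤ) := by
    intro K
    unfold Pool.Agent.V8H87.EB.Br.pc
    rw [Subgroup.index, Nat.cast_inj]
    exact Nat.card_congr (Equiv.subtypeUnivEquiv fun q => one_smul _ q)
  have h1 := h 1
  rw [Finset.sum_congr rfl fun i _ => hpc1 (U i), Finset.sum_congr rfl fun j _ => hpc1 (U' j)] at h1
  rw [← Finset.mul_sum, ← Finset.mul_sum]
  congr 1
  exact_mod_cast h1

section Main

variable {F N : Type} [Field F] [NumberField F] [IsTotallyComplex F] [Field N] [NumberField N]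
  [Algebra F N] [IsGalois F N] {E : Type} [Field E] [CharZero E]

/-- Q1 for the restriction of `M₁` to the field of `U`, and the values are not zero -/
def RQ1 (n : ℕ) (a b : (E →+* ℂ) → Subgroup (N ≃ₐ[F] N) → ℂ) (U : Subgroup (N ≃ₐ[F] N)) : Prop :=
  (∀ ι, a ι U ≠ 0 ∧ b ι U ≠ 0) ∧
    Q1 (IntermediateField.fixedField U) E n (fun ι => a ι U) (fun ι => b ι U)

lemma delta_K {y : ℂ} (hy : IsDelta F y) (K : Subgroup (N ≃ₐ[F] N)) (x' : ℂ)
    (hx' : IsDelta (IntermediateField.fixedField K) x') :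
    ∃ q : ℚ, q ≠ 0 ∧ Complex.I ^ (finrank ℚ (IntermediateField.fixedField K) / 2) * x' =
      (q : ℂ) * (Complex.I ^ (finrank ℚ F / 2) * y) ^ K.index := by
  have hdeg : finrank F (IntermediateField.fixedField K) = K.index := by
    rw [IntermediateField.finrank_eq_fixingSubgroup_index,
      IntermediateField.fixingSubgroup_fixedField]
  obtain ⟨q, hq0, hq⟩ := delta_ext (F := F) hy hx'
  refine ⟨q, hq0, ?_⟩
  have h2 : finrank ℚ (IntermediateField.fixedField K) / 2 = finrank ℚ F / 2 * K.index := by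
    rw [← finrank_mul_finrank ℚ F (IntermediateField.fixedField K), hdeg]
    have h3 : finrank ℚ F = 2 * InfinitePlace.nrComplexPlaces F := IsTotallyComplex.finrank F
    rw [h3, mul_assoc, Nat.mul_div_cancel_left _ two_pos, Nat.mul_div_cancel_left _ two_pos]
  rw [hdeg] at hq
  rw [h2, hq, mul_pow, ← pow_mul]
  ring

lemma RQ1_iff {n : ℕ} {a b : (E →+* ℂ) → Subgroup (N ≃ₐ[F] N) → ℂ} {U : Subgroup (N ≃ₐ[F] N)}
    {y : ℂ} (hy : IsDelta F y) :
    RQ1 n a b U ↔ TT (S := E →+* ℂ) id (Complex.I ^ (finrank ℚ F / 2) * y) a b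
      (fun U => n * U.index) U := by
  have hemb : ∀ (ι : E →+* ℂ) (q : ℚ), ι (algebraMap ℚ E q) = (q : ℂ) := fun ι q => by simp
  constructor
  · rintro ⟨h1, h2⟩
    obtain ⟨x', hx'⟩ := exists_delta (IntermediateField.fixedField U)
    obtain ⟨q, hq0, hq⟩ := delta_K hy U x' hx'
    obtain ⟨e, he0, he⟩ := h2 x' hx'
    refine ⟨h1, e * (algebraMap ℚ E q) ^ n, mul_ne_zero he0
      (pow_ne_zero _ ((map_ne_zero _).2 hq0)), fun ι => ?_⟩
    have h3 := he ι
    change a ι U = _ * b ι U at h3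
    rw [h3, hq]
    change _ = ι (e * (algebraMap ℚ E q) ^ n) *
      (Complex.I ^ (finrank ℚ F / 2) * y) ^ (n * U.index) * b ι U
    rw [map_mul, map_pow, hemb]
    ring
  · rintro ⟨h1, e, he0, he⟩
    refine ⟨h1, fun x hx => ?_⟩
    obtain ⟨q, hq0, hq⟩ := delta_K hy U x hx
    have hqE : algebraMap ℚ E q ≠ 0 := (map_ne_zero _).2 hq0
    have hqC : (q : ℂ) ≠ 0 := by exact_mod_cast hq0
    refine ⟨e / (algebraMap ℚ E q) ^ n, div_ne_zero he0 (pow_ne_zero _ hqE), fun ι => ?_⟩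
    have h3 := he ι
    change a ι U = ι e * (Complex.I ^ (finrank ℚ F / 2) * y) ^ (n * U.index) * b ι U at h3
    change a ι U = _ * b ι U
    rw [h3, hq, map_div₀, map_pow, hemb]
    generalize Complex.I ^ (finrank ℚ F / 2) * y = c
    rw [mul_pow, ← pow_mul c, mul_comm U.index n]
    field_simp

/-- one step -/
lemma RQ1_step {n : ℕ} {a b : (E →+* ℂ) → Subgroup (N ≃ₐ[F] N) → ℂ} (ha : MulPerm a)
    (hb : MulPerm b) {U : Subgroup (N ≃ₐ[F] N)}
    (hU : ¬ PQ2 (IntermediateField.fixedField U ≃ₐ[F] IntermediateField.fixedField U))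
    (hup : ∀ U', U < U' → RQ1 n a b U') : RQ1 n a b U := by
  obtain ⟨y, hy⟩ := exists_delta F
  rw [RQ1_iff hy]
  exact TT_step (mul_ne_zero (pow_ne_zero _ Complex.I_ne_zero) hy.ne_zero) ha hb
    (addPerm_index n) (fun h => hU ((pq2_iff U).1 h)) fun U' h => (RQ1_iff hy).1 (hup U' h)

/-- all fields -/
lemma RQ1_all {n : ℕ} {a b : (E →+* ℂ) → Subgroup (N ≃ₐ[F] N) → ℂ} (ha : MulPerm a)
    (hb : MulPerm b)
    (hP : ∀ U : Subgroup (N ≃ₐ[F] N),
      PQ2 (IntermediateField.fixedField U ≃ₐ[F] IntermediateField.fixedField U) → RQ1 n a b U)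
    (U : Subgroup (N ≃ₐ[F] N)) : RQ1 n a b U := by
  obtain ⟨y, hy⟩ := exists_delta F
  rw [RQ1_iff hy]
  exact TT_all (mul_ne_zero (pow_ne_zero _ Complex.I_ne_zero) hy.ne_zero) ha hb
    (addPerm_index n) (fun U' h => (RQ1_iff hy).1 (hP U' ((pq2_iff U').1 h))) U

end Main

section Twist

variable {G : Type} [Group G] [Fintype G] {E : Type} [Field E] [CharZero E] {Ω : Type} [Field Ω]
  [CharZero Ω] [Algebra E Ω] [Algebra.IsAlgebraic E Ω]

lemma mulPerm_of_formal {a : (Ω →+* ℂ) → (U : Subgroup G) → (U → Ω) → ℂ} (ha : Formal a)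
    {a₀ : (E →+* ℂ) → Subgroup G → ℂ}
    (ha₀ : ∀ ι U, a ι U (fun _ => 1) = a₀ (ι.comp (algebraMap E Ω)) U) : MulPerm a₀ := by
  intro I J _ _ U U' h ι₀
  letI : Algebra E ℂ := ι₀.toAlgebra
  obtain ⟨ι, hι⟩ : ∃ ι : Ω →+* ℂ, ι.comp (algebraMap E Ω) = ι₀ := by
    refine ⟨(IsAlgClosed.lift : Ω →ₐ[E] ℂ).toRingHom, ?_⟩
    ext x
    exact (IsAlgClosed.lift : Ω →ₐ[E] ℂ).commutes x
  have h1 := ha I J U (fun _ _ => 1) U' (fun _ _ => 1) (fun i => isChar_one _)
    (fun j => isChar_one _) (by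
      intro g
      rw [Finset.sum_congr rfl fun i _ => Ind_pc (U i) g,
        Finset.sum_congr rfl fun j _ => Ind_pc (U' j) g]
      exact_mod_cast congrArg (Int.cast (R := Ω)) (h g)) ι
  rw [Finset.prod_congr rfl fun i _ => ha₀ ι (U i), Finset.prod_congr rfl fun j _ => ha₀ ι (U' j),
    hι] at h1
  exact h1

end Twist

end Pool.Agent.V8H93.BR
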