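import Pool.Agent.V8H93.BR.Part

/-!
# The relation of a noncyclic group of order `p q`, `p ≠ q`, and the induction
-/

set_option autoImplicit false
set_option linter.style.haveILetI false
set_option linter.unusedSectionVars false

open scoped Classical

namespace Pool.Agent.V8H93.BR

open Pool.Agent.V8H87.EB.Br (pc)
open Pool.Agent.V8H93.QI (Weyl)

section

variable {W : Type} [Group W] [Fintype W]

lemma conj_of_card (K : Subgroup W) {p q : ℕ} (hp : p.Prime) (hq : q.Prime) (hpq : p ≠ q)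
    (hK : Nat.card K = p * q) {L L' : Subgroup W} (hL : L ≤ K) (hL' : L' ≤ K)
    (h1 : Nat.card L = p) (h2 : Nat.card L' = p) :
    ∃ k ∈ K, ∀ w, w ∈ L' ↔ k⁻¹ * w * k ∈ L := by
  have := Fact.mk hp
  have hf : (Nat.card K).factorization p = 1 := by
    rw [hK, Nat.factorization_mul hp.ne_zero hq.ne_zero, Finsupp.add_apply,
      hp.factorization_self, Nat.factorization_eq_zero_of_not_dvd (n := q) (p := p)
      (fun h => hpq ((Nat.prime_dvd_prime_iff_eq hp hq).1 h))]
  have h3 : Nat.card (L.subgroupOf K) = p ^ (Nat.card K).factorization p := by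
    rw [hf, pow_one, ← h1]
    exact Nat.card_congr (Subgroup.subgroupOfEquivOfLe hL).toEquiv
  have h4 : Nat.card (L'.subgroupOf K) = p ^ (Nat.card K).factorization p := by
    rw [hf, pow_one, ← h2]
    exact Nat.card_congr (Subgroup.subgroupOfEquivOfLe hL').toEquiv
  obtain ⟨k, hk⟩ := MulAction.exists_smul_eq K (Sylow.ofCard (L.subgroupOf K) h3)
    (Sylow.ofCard (L'.subgroupOf K) h4)
  have h5 : (k • (Sylow.ofCard (L.subgroupOf K) h3) : Sylow p K).toSubgroup =
      (Sylow.ofCard (L'.subgroupOf K) h4).toSubgroup := by rw [hk]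
  rw [Sylow.smul_def, Sylow.pointwise_smul_def] at h5
  have h6 : ∀ y : K, y ∈ L'.subgroupOf K ↔ k⁻¹ * y * k ∈ L.subgroupOf K := by
    intro y
    have e1 : y ∈ (Sylow.ofCard (L'.subgroupOf K) h4).toSubgroup ↔ y ∈ L'.subgroupOf K := Iff.rfl
    rw [← e1, ← h5, Subgroup.mem_pointwise_smul_iff_inv_smul_mem]
    have e2 : (MulAut.conj k)⁻¹ • y = k⁻¹ * y * k := by
      rw [← map_inv, MulAut.smul_def, MulAut.conj_apply, inv_inv]
    rw [e2]
    exact Iff.rfl
  refine ⟨k, k.2, fun w => ?_⟩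
  constructor
  · intro hw
    have h7 := (h6 ⟨w, hL' hw⟩).1 (Subgroup.mem_subgroupOf.2 hw)
    exact Subgroup.mem_subgroupOf.1 h7
  · intro hw
    have hwK : w ∈ K := by
      have h8 := mul_mem (mul_mem k.2 (hL hw)) (inv_mem k.2)
      have h9 : (k : W) * ((k : W)⁻¹ * w * k) * (k : W)⁻¹ = w := by group
      rwa [h9] at h8
    have h7 := (h6 ⟨w, hwK⟩).2 (Subgroup.mem_subgroupOf.2 hw)
    exact Subgroup.mem_subgroupOf.1 h7

/-- the subgroup of order `q`, the larger prime, is unique -/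
lemma uniq_q (K : Subgroup W) {p q : ℕ} (hp : p.Prime) (hq : q.Prime) (hpq : p < q)
    (hK : Nat.card K = p * q) {L L' : Subgroup W} (hL : L ≤ K) (hL' : L' ≤ K)
    (h1 : Nat.card L = q) (h2 : Nat.card L' = q) : L = L' := by
  obtain ⟨k, hk, h3⟩ := conj_of_card K hq hp hpq.ne' (by rw [hK, mul_comm]) hL hL' h1 h2
  have hidx : (L.subgroupOf K).index = (Nat.card K).minFac := by
    have h4 := Subgroup.card_mul_index (L.subgroupOf K)
    have h5 : Nat.card (L.subgroupOf K) = q := by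
      rw [← h1]
      exact Nat.card_congr (Subgroup.subgroupOfEquivOfLe hL).toEquiv
    rw [h5, hK, mul_comm p q] at h4
    have h6 := Nat.eq_of_mul_eq_mul_left hq.pos h4
    rw [h6, hK]
    symm
    refine le_antisymm (Nat.minFac_le_of_dvd hp.two_le (Dvd.intro _ rfl)) ?_
    have h7 : (p * q).minFac.Prime := Nat.minFac_prime (by
      intro h
      have := Nat.eq_one_of_mul_eq_one_right h
      exact hp.one_lt.ne' this)
    have h8 : (p * q).minFac ∣ p * q := Nat.minFac_dvd _
    rcases (Nat.Prime.dvd_mul h7).1 h8 with h9 | h9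
    · exact ((Nat.prime_dvd_prime_iff_eq h7 hp).1 h9).ge
    · exact hpq.le.trans ((Nat.prime_dvd_prime_iff_eq h7 hq).1 h9).ge
  have hn : (L.subgroupOf K).Normal := Subgroup.normal_of_index_eq_minFac_card hidx
  symm
  refine Subgroup.eq_of_le_of_card_ge ?_ (by rw [h1, h2])
  intro w hw
  have h4 := (h3 w).1 hw
  have h5 : (⟨(k : W)⁻¹ * w * k, hL h4⟩ : K) ∈ L.subgroupOf K := Subgroup.mem_subgroupOf.2 h4
  have h6 := hn.conj_mem _ h5 ⟨k, hk⟩
  have h7 := Subgroup.mem_subgroupOf.1 h6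
  have h8 : k * (k⁻¹ * w * k) * k⁻¹ = w := by group
  have h9 : k * (k⁻¹ * w * k) * k⁻¹ ∈ L := h7
  rwa [h8] at h9

end

variable {G : Type} [Group G] [Fintype G] {H : Subgroup G}

lemma pc_lf_conj (L L' : Subgroup (Weyl H)) (k : Weyl H) (h : ∀ w, w ∈ L' ↔ k⁻¹ * w * k ∈ L)
    (g : G) : pc (lf H L') g = pc (lf H L) g := by
  obtain ⟨n, rfl⟩ := QuotientGroup.mk'_surjective _ k
  refine pc_conj (lf H L) (lf H L') n (fun y => ?_) g
  constructor
  · intro hy
    have h1 := (mem_lf L' ⟨y, lf_le _ hy⟩).1 hy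
    rw [h, ← map_inv, ← map_mul, ← map_mul, ← mem_lf] at h1
    exact h1
  · intro hy
    have hyN : y ∈ Subgroup.normalizer (H : Set G) := by
      have h8 := mul_mem (mul_mem n.2 (lf_le _ hy)) (inv_mem n.2)
      have h9 : (n : G) * ((n : G)⁻¹ * y * n) * (n : G)⁻¹ = y := by group
      rwa [h9] at h8
    refine (mem_lf L' ⟨y, hyN⟩).2 ?_
    rw [h, ← map_inv, ← map_mul, ← map_mul, ← mem_lf]
    exact hy

/-- noncyclic subgroups of order `p q`, `p < q` -/
lemma step_pq (K : Subgroup (Weyl H)) {p q : ℕ} (hp : p.Prime) (hq : q.Prime) (hpq : p < q)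
    (hK : Nat.card K = p * q) (hc : ¬ IsCyclic K) : pc H ∈ up H := by
  have ho : ∀ k ∈ K, k ≠ 1 → (orderOf k).Prime := by
    intro k hk hk1
    have h1 := Pool.Agent.V8H93.QI.prime_of_card hp hq hK hc ⟨k, hk⟩
      (fun h => hk1 (congrArg Subtype.val h))
    rwa [Subgroup.orderOf_mk] at h1
  have hor : ∀ L ∈ prs K, Nat.card L = p ∨ Nat.card L = q := by
    intro L hL
    obtain ⟨h1, h2⟩ := mem_prs.1 hL
    have h3 : Nat.card L ∣ p * q := hK ▸ Subgroup.card_dvd_of_le h1
    rcases (Nat.Prime.dvd_mul h2).1 h3 with h4 | h4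
    · exact Or.inl ((Nat.prime_dvd_prime_iff_eq h2 hp).1 h4)
    · exact Or.inr ((Nat.prime_dvd_prime_iff_eq h2 hq).1 h4)
  -- the subgroup `Q`
  have := Fact.mk hq
  have := Fact.mk hp
  obtain ⟨x, hx⟩ := exists_prime_orderOf_dvd_card' (G := K) q (hK ▸ Dvd.intro_left _ rfl)
  obtain ⟨y, hy⟩ := exists_prime_orderOf_dvd_card' (G := K) p (hK ▸ Dvd.intro _ rfl)
  obtain ⟨Q, hQdef⟩ : ∃ Q : Subgroup (Weyl H), Q = Subgroup.zpowers (x : Weyl H) := ⟨_, rfl⟩
  obtain ⟨P, hPdef⟩ : ∃ P : Subgroup (Weyl H), P = Subgroup.zpowers (y : Weyl H) := ⟨_, rfl⟩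
  have hQc : Nat.card Q = q := by rw [hQdef, Nat.card_zpowers, Subgroup.orderOf_coe, hx]
  have hPc : Nat.card P = p := by rw [hPdef, Nat.card_zpowers, Subgroup.orderOf_coe, hy]
  have hQK : Q ≤ K := by rw [hQdef, Subgroup.zpowers_le]; exact x.2
  have hPK : P ≤ K := by rw [hPdef, Subgroup.zpowers_le]; exact y.2
  have hQm : Q ∈ prs K := mem_prs.2 ⟨hQK, hQc ▸ hq⟩
  have hother : ∀ L ∈ (prs K).erase Q, Nat.card L = p := by
    intro L hL
    obtain ⟨h1, h2⟩ := Finset.mem_erase.1 hL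
    rcases hor L h2 with h3 | h3
    · exact h3
    · exact absurd (uniq_q K hp hq hpq hK (mem_prs.1 h2).1 hQK h3 hQc) h1
  have hp0 : (p : ℤ) ≠ 0 := by exact_mod_cast hp.ne_zero
  have hq0 : (q : ℤ) ≠ 0 := by exact_mod_cast hq.ne_zero
  have hcard : ((prs K).card : ℤ) = (((prs K).erase Q).card : ℤ) + 1 := by
    have := Finset.card_erase_add_one hQm
    exact_mod_cast this.symm
  have hm : (((prs K).erase Q).card : ℤ) = q := by
    have h1 := cnt K ho
    rw [← Finset.add_sum_erase _ _ hQm, hQc,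
      Finset.sum_congr rfl (fun L h => by rw [hother L h]), Finset.sum_const, nsmul_eq_mul, hK,
      hcard] at h1
    push_cast at h1
    have h2 : ((p : ℤ) - 1) * ((((prs K).erase Q).card : ℤ) - q) = 0 := by linear_combination h1
    have h3 : (p : ℤ) - 1 ≠ 0 := by
      have := hp.two_le
      omega
    have h4 := (mul_eq_zero.1 h2).resolve_left h3
    linarith
  have h1 : pc H = pc (lf H Q) + (p : ℤ) • pc (lf H P) - (p : ℤ) • pc (lf H K) := by
    funext g
    have h2 := rel K ho g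
    have h3 : ∀ L ∈ (prs K).erase Q, (Nat.card L : ℤ) * pc (lf H L) g = p * pc (lf H P) g := by
      intro L hL
      obtain ⟨k, hk, h4⟩ := conj_of_card K hp hq hpq.ne hK hPK
        (mem_prs.1 (Finset.mem_erase.1 hL).2).1 hPc (hother L hL)
      rw [hother L hL, pc_lf_conj P L k h4]
    rw [← Finset.add_sum_erase _ _ hQm, hQc, Finset.sum_congr rfl h3, Finset.sum_const,
      nsmul_eq_mul, hK, hcard, hm] at h2
    push_cast at h2
    rw [Pi.sub_apply, Pi.add_apply, Pi.smul_apply, Pi.smul_apply, smul_eq_mul, smul_eq_mul]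
    have h4 : (q : ℤ) * pc H g =
        q * (pc (lf H Q) g + p * pc (lf H P) g - p * pc (lf H K) g) := by
      linear_combination -h2
    exact mul_left_cancel₀ hq0 h4
  rw [h1]
  refine sub_mem (add_mem (lf_up (ne_bot_of_prime (hQc ▸ hq)))
    (zsmul_mem (lf_up (ne_bot_of_prime (hPc ▸ hp))) _)) (zsmul_mem (lf_up ?_) _)
  rintro rfl
  rw [Subgroup.card_bot] at hK
  have := hp.two_le
  have := hq.two_le
  nlinarith

lemma step (hH : ¬ PQ2 (Weyl H)) : pc H ∈ up H := by
  unfold PQ2 at hH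
  push Not at hH
  obtain ⟨K, p, q, hp, hq, hK, hc⟩ := hH
  rcases lt_trichotomy p q with h | h | h
  · exact step_pq K hp hq h hK hc
  · subst h
    exact step_pp K hp hK hc
  · exact step_pq K hq hp h (by rw [hK, mul_comm]) hc

/-- integral combinations of the permutation characters of the subgroups `H` for which all
subgroups of order `p q` of `N(H) / H` are cyclic -/
def Ps (G : Type) [Group G] [Fintype G] : AddSubgroup (G → ℤ) :=
  AddSubgroup.closure {f | ∃ H : Subgroup G, PQ2 (Weyl H) ∧ f = pc H}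

/-- the main theorem on permutation characters -/
theorem pc_mem_Ps (U : Subgroup G) : pc U ∈ Ps G := by
  induction U using WellFoundedGT.induction with
  | ind U ih =>
    by_cases h : PQ2 (Weyl U)
    · exact AddSubgroup.subset_closure ⟨U, h, rfl⟩
    · have h1 : up U ≤ Ps G := by
        refine (AddSubgroup.closure_le _).2 ?_
        rintro _ ⟨H', hH', rfl⟩
        exact ih H' hH'
      exact h1 (step h)

end Pool.Agent.V8H93.BR
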