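import Pool.Agent.V8H93.BR.Rel

/-!
# The relation of a noncyclic group of order `p q`
-/

set_option autoImplicit false
set_option linter.style.haveILetI false
set_option linter.unusedSectionVars false

open scoped Classical

namespace Pool.Agent.V8H93.BR

open Pool.Agent.V8H87.EB.Br (pc)
open Pool.Agent.V8H93.QI (Weyl)

/-- In `W` all subgroups of order `p q`, `p` and `q` primes, are cyclic. -/
def PQ2 (W : Type) [Group W] : Prop :=
  ∀ (K : Subgroup W) (p q : ℕ), p.Prime → q.Prime → Nat.card K = p * q → IsCyclic K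

section Part

variable {W : Type} [Group W] [Fintype W]

/-- the subgroups of prime order -/
noncomputable def prs (K : Subgroup W) : Finset (Subgroup W) :=
  Finset.univ.filter fun L => L ≤ K ∧ (Nat.card L).Prime

lemma mem_prs {K L : Subgroup W} : L ∈ prs K ↔ L ≤ K ∧ (Nat.card L).Prime := by
  unfold prs
  simp

lemma part (K : Subgroup W) (hp : ∀ k ∈ K, k ≠ 1 → (orderOf k).Prime) (w : W) :
    ∑ L ∈ prs K, (if w ∈ L then (1 : ℤ) else 0) =
      (((prs K).card : ℤ) - 1) * (if w ∈ (⊥ : Subgroup W) then 1 else 0) +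
        (if w ∈ K then 1 else 0) := by
  by_cases hw : w = 1
  · subst hw
    rw [if_pos (one_mem _), if_pos (one_mem _)]
    have h1 : ∀ L ∈ prs K, (if (1 : W) ∈ L then (1 : ℤ) else 0) = 1 :=
      fun L _ => if_pos (one_mem _)
    rw [Finset.sum_congr rfl h1, Finset.sum_const, nsmul_eq_mul]
    ring
  · rw [if_neg (fun h => hw (Subgroup.mem_bot.1 h)), mul_zero, zero_add]
    by_cases hK : w ∈ K
    · rw [if_pos hK]
      have hz : Subgroup.zpowers w ∈ prs K := by
        rw [mem_prs, Nat.card_zpowers]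
        exact ⟨by rwa [Subgroup.zpowers_le], hp w hK hw⟩
      rw [Finset.sum_eq_single_of_mem _ hz, if_pos (Subgroup.mem_zpowers w)]
      intro L hL hne
      rw [if_neg]
      intro hwL
      apply hne
      symm
      refine Subgroup.eq_of_le_of_card_ge (by rwa [Subgroup.zpowers_le]) ?_
      have h1 : Nat.card (Subgroup.zpowers w) ∣ Nat.card L :=
        Subgroup.card_dvd_of_le (by rwa [Subgroup.zpowers_le])
      rcases (Nat.dvd_prime (mem_prs.1 hL).2).1 h1 with h2 | h2
      · rw [Nat.card_zpowers, orderOf_eq_one_iff] at h2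
        exact absurd h2 hw
      · rw [h2]
    · rw [if_neg hK]
      refine Finset.sum_eq_zero (fun L hL => if_neg (fun h => hK ((mem_prs.1 hL).1 h)))

lemma sum_ind (L : Subgroup W) : (∑ w : W, if w ∈ L then (1 : ℤ) else 0) = Nat.card L := by
  rw [Finset.sum_boole, Nat.card_eq_fintype_card, Fintype.card_subtype]

lemma cnt (K : Subgroup W) (hp : ∀ k ∈ K, k ≠ 1 → (orderOf k).Prime) :
    ∑ L ∈ prs K, (Nat.card L : ℤ) = (((prs K).card : ℤ) - 1) + Nat.card K := by
  have h1 : ∑ w : W, ∑ L ∈ prs K, (if w ∈ L then (1 : ℤ) else 0) =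
      ∑ w : W, ((((prs K).card : ℤ) - 1) * (if w ∈ (⊥ : Subgroup W) then 1 else 0) +
        (if w ∈ K then 1 else 0)) := Finset.sum_congr rfl (fun w _ => part K hp w)
  rw [Finset.sum_comm, Finset.sum_add_distrib, ← Finset.mul_sum, sum_ind, sum_ind,
    Subgroup.card_bot, Nat.cast_one, mul_one] at h1
  rw [← h1]
  exact Finset.sum_congr rfl (fun L _ => (sum_ind L).symm)

end Part

variable {G : Type} [Group G] [Fintype G] {H : Subgroup G}

lemma rel (K : Subgroup (Weyl H)) (hp : ∀ k ∈ K, k ≠ 1 → (orderOf k).Prime) (g : G) :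
    ∑ L ∈ prs K, (Nat.card L : ℤ) * pc (lf H L) g =
      (((prs K).card : ℤ) - 1) * pc H g + (Nat.card K : ℤ) * pc (lf H K) g := by
  have h0 : ∀ w : Weyl H, ∑ i ∈ (prs K).disjSum (Finset.univ : Finset Bool),
      (Sum.elim (fun _ => 1) (fun b => if b then -(((prs K).card : ℤ) - 1) else -1) :
        Subgroup (Weyl H) ⊕ Bool → ℤ) i *
      (if w ∈ (Sum.elim id (fun b => if b then ⊥ else K) :
        Subgroup (Weyl H) ⊕ Bool → Subgroup (Weyl H)) i then (1 : ℤ) else 0) = 0 := by
    intro w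
    rw [Finset.sum_disjSum, Fintype.sum_bool]
    have e1 : ∑ L ∈ prs K, (Sum.elim (fun _ => 1)
        (fun b => if b then -(((prs K).card : ℤ) - 1) else -1) :
        Subgroup (Weyl H) ⊕ Bool → ℤ) (Sum.inl L) *
      (if w ∈ (Sum.elim id (fun b => if b then ⊥ else K) :
        Subgroup (Weyl H) ⊕ Bool → Subgroup (Weyl H)) (Sum.inl L) then (1 : ℤ) else 0) =
        ∑ L ∈ prs K, (if w ∈ L then (1 : ℤ) else 0) :=
      Finset.sum_congr rfl (fun L _ => one_mul _)
    rw [e1, part K hp w]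
    show _ + ((-(((prs K).card : ℤ) - 1)) * (if w ∈ (⊥ : Subgroup (Weyl H)) then 1 else 0) +
      (-1) * (if w ∈ K then 1 else 0)) = (0 : ℤ)
    ring
  have h1 := transfer (H := H) ((prs K).disjSum (Finset.univ : Finset Bool))
    (Sum.elim id (fun b => if b then ⊥ else K))
    (Sum.elim (fun _ => 1) (fun b => if b then -(((prs K).card : ℤ) - 1) else -1)) h0 g
  rw [Finset.sum_disjSum, Fintype.sum_bool] at h1
  have e2 : ∑ L ∈ prs K, (Sum.elim (fun _ => 1)
        (fun b => if b then -(((prs K).card : ℤ) - 1) else -1) :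
        Subgroup (Weyl H) ⊕ Bool → ℤ) (Sum.inl L) *
      ((Nat.card ((Sum.elim id (fun b => if b then ⊥ else K) :
        Subgroup (Weyl H) ⊕ Bool → Subgroup (Weyl H)) (Sum.inl L)) : ℤ) *
        pc (lf H ((Sum.elim id (fun b => if b then ⊥ else K) :
        Subgroup (Weyl H) ⊕ Bool → Subgroup (Weyl H)) (Sum.inl L))) g) =
        ∑ L ∈ prs K, (Nat.card L : ℤ) * pc (lf H L) g :=
      Finset.sum_congr rfl (fun L _ => one_mul _)
  rw [e2] at h1
  have h2 : ∑ L ∈ prs K, (Nat.card L : ℤ) * pc (lf H L) g +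
      ((-(((prs K).card : ℤ) - 1)) * ((Nat.card (⊥ : Subgroup (Weyl H)) : ℤ) *
        pc (lf H (⊥ : Subgroup (Weyl H))) g) +
      (-1) * ((Nat.card K : ℤ) * pc (lf H K) g)) = 0 := h1
  rw [lf_bot, Subgroup.card_bot, Nat.cast_one] at h2
  linear_combination h2

/-- the span of the permutation characters of the larger subgroups -/
def up (H : Subgroup G) : AddSubgroup (G → ℤ) :=
  AddSubgroup.closure {f | ∃ H' : Subgroup G, H < H' ∧ f = pc H'}

lemma lf_up {L : Subgroup (Weyl H)} (hL : L ≠ ⊥) : pc (lf H L) ∈ up H :=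
  AddSubgroup.subset_closure ⟨_, lf_lt hL, rfl⟩

lemma ne_bot_of_prime {W : Type} [Group W] {L : Subgroup W} (h : (Nat.card L).Prime) : L ≠ ⊥ := by
  rintro rfl
  rw [Subgroup.card_bot] at h
  exact Nat.not_prime_one h

/-- noncyclic subgroups of order `p ^ 2` -/
lemma step_pp (K : Subgroup (Weyl H)) {p : ℕ} (hp : p.Prime) (hK : Nat.card K = p * p)
    (hc : ¬ IsCyclic K) : pc H ∈ up H := by
  have ho : ∀ k ∈ K, k ≠ 1 → (orderOf k).Prime := by
    intro k hk hk1
    have h1 := Pool.Agent.V8H93.QI.prime_of_card hp hp hK hc ⟨k, hk⟩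
      (fun h => hk1 (congrArg Subtype.val h))
    rwa [Subgroup.orderOf_mk] at h1
  have hL : ∀ L ∈ prs K, Nat.card L = p := by
    intro L hL
    obtain ⟨h1, h2⟩ := mem_prs.1 hL
    have h3 : Nat.card L ∣ p * p := hK ▸ Subgroup.card_dvd_of_le h1
    rcases (Nat.Prime.dvd_mul h2).1 h3 with h4 | h4 <;>
      exact (Nat.prime_dvd_prime_iff_eq h2 hp).1 h4
  have hp0 : (p : ℤ) ≠ 0 := by exact_mod_cast hp.ne_zero
  have hm : ((prs K).card : ℤ) = p + 1 := by
    have h1 := cnt K ho
    rw [Finset.sum_congr rfl (fun L h => by rw [hL L h]), Finset.sum_const, nsmul_eq_mul, hK] at h1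
    push_cast at h1
    have h2 : ((p : ℤ) - 1) * (((prs K).card : ℤ) - (p + 1)) = 0 := by linear_combination h1
    have h3 : (p : ℤ) - 1 ≠ 0 := by
      have := hp.two_le
      omega
    have h4 := (mul_eq_zero.1 h2).resolve_left h3
    linarith
  have h1 : pc H = (∑ L ∈ prs K, pc (lf H L)) - (p : ℤ) • pc (lf H K) := by
    funext g
    have h2 := rel K ho g
    rw [Finset.sum_congr rfl (fun L h => by rw [hL L h]), ← Finset.mul_sum, hm, hK] at h2
    push_cast at h2
    rw [Pi.sub_apply, Finset.sum_apply, Pi.smul_apply, smul_eq_mul]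
    have h3 : (p : ℤ) * (∑ L ∈ prs K, pc (lf H L) g) =
        p * (pc H g + p * pc (lf H K) g) := by rw [h2]; ring
    have h4 := mul_left_cancel₀ hp0 h3
    linarith
  rw [h1]
  refine sub_mem (sum_mem fun L hL' => lf_up (ne_bot_of_prime (mem_prs.1 hL').2))
    (zsmul_mem (lf_up ?_) _)
  rintro rfl
  rw [Subgroup.card_bot] at hK
  have := hp.two_le
  nlinarith

end Pool.Agent.V8H93.BR
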