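import Pool.Agent.V8H87.EB.Br.Perm
import Pool.Agent.V8H93.QI.Gen

/-!
# Integral relations between permutation characters, from small to large subgroups
-/

set_option autoImplicit false
set_option linter.style.haveILetI false
set_option linter.unusedSectionVars false

open scoped Classical

namespace Pool.Agent.V8H93.BR

open Pool.Agent.V8H87.EB.Br (pc)
open Pool.Agent.V8H93.QI (Weyl)

variable {G : Type} [Group G] [Fintype G]

/-- the number of `x` with `x⁻¹ g x` in `H` -/
lemma count (H : Subgroup G) (g : G) :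
    (∑ x : G, if x⁻¹ * g * x ∈ H then (1 : ℤ) else 0) = (Nat.card H : ℤ) * pc H g := by
  have h1 : (∑ x : G, if x⁻¹ * g * x ∈ H then (1 : ℤ) else 0) =
      (Nat.card {x : G // x⁻¹ * g * x ∈ H} : ℤ) := by
    rw [Finset.sum_boole, Nat.card_eq_fintype_card, Fintype.card_subtype]
  rw [h1]
  unfold Pool.Agent.V8H87.EB.Br.pc
  rw [← Nat.cast_mul, ← Nat.card_prod]
  congr 1
  have h2 : ∀ x : G, x⁻¹ * g * x ∈ H ↔ g • (x : G ⧸ H) = (x : G ⧸ H) := by
    intro x
    rw [MulAction.Quotient.smul_coe, smul_eq_mul, eq_comm, QuotientGroup.eq, mul_assoc]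
  refine Nat.card_congr (Equiv.trans ?_
    (QuotientGroup.preimageMkEquivSubgroupProdSet H {q : G ⧸ H | g • q = q}))
  exact Equiv.subtypeEquivRight fun x => h2 x

/-- the subgroup of `G` belonging to a subgroup of `N_G(H) / H` -/
def lf (H : Subgroup G) (L : Subgroup (Weyl H)) : Subgroup G :=
  (L.comap (QuotientGroup.mk' (H.subgroupOf (Subgroup.normalizer (H : Set G))))).map
    (Subgroup.normalizer (H : Set G)).subtype

variable {H : Subgroup G}

lemma mem_lf (L : Subgroup (Weyl H)) (n : Subgroup.normalizer (H : Set G)) :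
    (n : G) ∈ lf H L ↔ (QuotientGroup.mk' (H.subgroupOf (Subgroup.normalizer (H : Set G))) n) ∈ L := by
  constructor
  · rintro ⟨m, hm, hmn⟩
    have h1 : m = n := Subtype.ext hmn
    rw [← h1]
    exact hm
  · intro h
    exact ⟨n, h, rfl⟩

lemma lf_le (L : Subgroup (Weyl H)) : lf H L ≤ Subgroup.normalizer (H : Set G) := by
  rintro _ ⟨n, -, rfl⟩
  exact n.2

lemma lf_bot : lf H (⊥ : Subgroup (Weyl H)) = H := by
  ext g
  constructor
  · intro hg
    have h1 := (mem_lf ⊥ ⟨g, lf_le _ hg⟩).1 hg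
    rw [Subgroup.mem_bot, QuotientGroup.mk'_apply, QuotientGroup.eq_one_iff] at h1
    exact h1
  · intro hg
    refine (mem_lf ⊥ ⟨g, Subgroup.le_normalizer hg⟩).2 ?_
    rw [Subgroup.mem_bot, QuotientGroup.mk'_apply, QuotientGroup.eq_one_iff]
    exact hg

lemma lf_lt {L : Subgroup (Weyl H)} (hL : L ≠ ⊥) : H < lf H L := by
  refine lt_of_le_of_ne ?_ ?_
  · intro g hg
    refine (mem_lf L ⟨g, Subgroup.le_normalizer hg⟩).2 ?_
    have h1 : QuotientGroup.mk' (H.subgroupOf (Subgroup.normalizer (H : Set G)))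
        ⟨g, Subgroup.le_normalizer hg⟩ = 1 := by
      rw [QuotientGroup.mk'_apply, QuotientGroup.eq_one_iff]
      exact hg
    rw [h1]
    exact one_mem _
  · intro heq
    apply hL
    rw [Subgroup.eq_bot_iff_forall]
    intro w hw
    obtain ⟨n, rfl⟩ := QuotientGroup.mk'_surjective _ w
    have h1 := (mem_lf L n).2 hw
    rw [← heq] at h1
    rw [QuotientGroup.mk'_apply, QuotientGroup.eq_one_iff]
    exact h1

lemma card_lf (L : Subgroup (Weyl H)) : Nat.card (lf H L) = Nat.card L * Nat.card H := by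
  have h1 : Nat.card (lf H L) = Nat.card (L.comap
      (QuotientGroup.mk' (H.subgroupOf (Subgroup.normalizer (H : Set G))))) :=
    Subgroup.card_map_of_injective (Subgroup.subtype_injective _)
  have h2 : Nat.card (H.subgroupOf (Subgroup.normalizer (H : Set G))) = Nat.card H :=
    Nat.card_congr (Subgroup.subgroupOfEquivOfLe Subgroup.le_normalizer).toEquiv
  rw [h1, ← h2, mul_comm, ← Nat.card_prod]
  exact Nat.card_congr (QuotientGroup.preimageMkEquivSubgroupProdSet
    (H.subgroupOf (Subgroup.normalizer (H : Set G))) (L : Set (Weyl H)))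

/-- Relations between indicator functions give relations between permutation characters. -/
lemma transfer {ι : Type} (s : Finset ι) (A : ι → Subgroup (Weyl H)) (c : ι → ℤ)
    (h : ∀ w : Weyl H, ∑ i ∈ s, c i * (if w ∈ A i then (1 : ℤ) else 0) = 0) (g : G) :
    ∑ i ∈ s, c i * ((Nat.card (A i) : ℤ) * pc (lf H (A i)) g) = 0 := by
  have h1 : ∀ x : G, ∑ i ∈ s, c i * (if x⁻¹ * g * x ∈ lf H (A i) then (1 : ℤ) else 0) = 0 := by
    intro x
    by_cases hx : x⁻¹ * g * x ∈ Subgroup.normalizer (H : Set G)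
    · refine (Finset.sum_congr rfl (fun i _ => ?_)).trans
        (h (QuotientGroup.mk' (H.subgroupOf (Subgroup.normalizer (H : Set G)))
          ⟨x⁻¹ * g * x, hx⟩))
      have h2 := mem_lf (A i) ⟨x⁻¹ * g * x, hx⟩
      simp only [h2]
    · refine Finset.sum_eq_zero (fun i _ => ?_)
      rw [if_neg (fun h2 => hx (lf_le _ h2)), mul_zero]
  have h2 : ∑ x : G, ∑ i ∈ s, c i * (if x⁻¹ * g * x ∈ lf H (A i) then (1 : ℤ) else 0) = 0 :=
    Finset.sum_eq_zero (fun x _ => h1 x)
  rw [Finset.sum_comm] at h2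
  have h3 : ∀ i ∈ s, ∑ x : G, c i * (if x⁻¹ * g * x ∈ lf H (A i) then (1 : ℤ) else 0) =
      (Nat.card H : ℤ) * (c i * ((Nat.card (A i) : ℤ) * pc (lf H (A i)) g)) := by
    intro i _
    rw [← Finset.mul_sum, count, card_lf]
    push_cast
    ring
  rw [Finset.sum_congr rfl h3, ← Finset.mul_sum] at h2
  have h4 : (Nat.card H : ℤ) ≠ 0 := by exact_mod_cast Nat.card_pos.ne'
  exact (mul_eq_zero.1 h2).resolve_left h4

/-- conjugate subgroups have the same permutation character -/
lemma pc_conj (A B : Subgroup G) (n : G) (h : ∀ y, y ∈ B ↔ n⁻¹ * y * n ∈ A) (g : G) :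
    pc B g = pc A g := by
  have h1 : Nat.card B = Nat.card A := by
    refine Nat.card_congr ⟨fun y => ⟨n⁻¹ * y * n, (h _).1 y.2⟩,
      fun y => ⟨n * y * n⁻¹, (h _).2 (by simpa [mul_assoc] using y.2)⟩, fun y => ?_, fun y => ?_⟩
    · apply Subtype.ext
      simp [mul_assoc]
    · apply Subtype.ext
      simp [mul_assoc]
  have h2 := count B g
  have h3 := count A g
  have h4 : (∑ x : G, if x⁻¹ * g * x ∈ B then (1 : ℤ) else 0) =
      ∑ x : G, if x⁻¹ * g * x ∈ A then (1 : ℤ) else 0 := by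
    rw [← Equiv.sum_comp (Equiv.mulRight n) (fun x : G => if x⁻¹ * g * x ∈ A then (1 : ℤ) else 0)]
    refine Finset.sum_congr rfl (fun x _ => ?_)
    have h5 : (x * n)⁻¹ * g * (x * n) = n⁻¹ * (x⁻¹ * g * x) * n := by group
    simp only [Equiv.coe_mulRight, h5, h]
  rw [h4, h3, h1] at h2
  have h6 : (Nat.card A : ℤ) ≠ 0 := by exact_mod_cast Nat.card_pos.ne'
  exact (mul_left_cancel₀ h6 h2).symm

end Pool.Agent.V8H93.BR
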